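import Pool.Agent.QPI.DefsF

set_option autoImplicit false

/-!
# Squad QPI, row F_SHI: the substitution `x_s ↦ a_s + β x_s` is injective
-/

namespace Pool.Agent.QPI.H15

open MvPolynomial Helper78_ACIT

theorem f_shi : ShiStmt := by
  intro G a β hβ
  constructor
  · intro h
    have h1 := out_map ((aeval fun s => C β⁻¹ * (X s - C (a s)) :
      MvPolynomial ℕ ℚ →ₐ[ℚ] MvPolynomial ℕ ℚ) : MvPolynomial ℕ ℚ →+* MvPolynomial ℕ ℚ)
      (fun s => C (a s) + C β * X s : ℕ → MvPolynomial ℕ ℚ) G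
    rw [h, map_zero] at h1
    have h2 : (fun j => ((aeval fun s => C β⁻¹ * (X s - C (a s)) :
        MvPolynomial ℕ ℚ →ₐ[ℚ] MvPolynomial ℕ ℚ) : MvPolynomial ℕ ℚ →+* MvPolynomial ℕ ℚ)
        ((fun s => C (a s) + C β * X s : ℕ → MvPolynomial ℕ ℚ) j)) = (X : ℕ → MvPolynomial ℕ ℚ) := by
      funext j
      simp only [RingHom.coe_coe, map_add, map_mul, aeval_C, aeval_X, MvPolynomial.algebraMap_eq]
      rw [← mul_assoc, ← C_mul, mul_inv_cancel₀ hβ, C_1, one_mul]
      ring
    rw [h2] at h1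
    have h3 := out_map (MvPolynomial.map (Int.castRingHom ℚ)) (X : ℕ → MvPolynomial ℕ ℤ) G
    simp only [MvPolynomial.map_X] at h3
    have h4 : MvPolynomial.map (Int.castRingHom ℚ) (poly G) = 0 := h3.trans h1.symm
    exact (map_eq_zero_iff _ (MvPolynomial.map_injective _ Int.cast_injective)).1 h4
  · intro h
    rw [out_eq_eval, h]
    exact MvPolynomial.eval₂_zero _ _

end Pool.Agent.QPI.H15
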